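import Mathlib
import Pool.Agent.Lib_helper55.GCI.Top

/-!
# The edge-colouring game on trees of maximum degree 4

There is a finite tree of maximum degree 4 on which Bob wins the edge-colouring game with 5 (and
with fewer) colours; its game chromatic index is at least 6.
-/

set_option autoImplicit false

namespace Pool.Agent.Results.MP_1dface_co.TreeIndexSix

/-- In the position `c` (a partial colouring of the edges of `G`) the edge `e` is uncoloured and
the colour `a` is admissible for it: no edge that shares an endpoint with `e` has colour `a`. -/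
def Legal {V : Type} (G : SimpleGraph V) {k : ℕ} (c : Sym2 V → Option (Fin k)) (e : Sym2 V)
    (a : Fin k) : Prop :=
  e ∈ G.edgeSet ∧ c e = none ∧
    ∀ f ∈ G.edgeSet, f ≠ e → (∃ v, v ∈ e ∧ v ∈ f) → c f ≠ some a

/-- Some uncoloured edge has no admissible colour. -/
def Stuck {V : Type} (G : SimpleGraph V) {k : ℕ} (c : Sym2 V → Option (Fin k)) : Prop :=
  ∃ e ∈ G.edgeSet, c e = none ∧ ∀ a : Fin k, ¬ Legal G c e a

/-- Bob has a winning strategy from the position `c`; Alice is to move if the Boolean is `true`,
Bob is to move if it is `false`. -/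
inductive BobWins {V : Type} [DecidableEq V] (G : SimpleGraph V) {k : ℕ} :
    Bool → (Sym2 V → Option (Fin k)) → Prop
  | stuck (t : Bool) (c : Sym2 V → Option (Fin k)) : Stuck G c → BobWins G t c
  | alice (c : Sym2 V → Option (Fin k)) : (∃ e a, Legal G c e a) →
      (∀ e a, Legal G c e a → BobWins G false (Function.update c e (some a))) → BobWins G true c
  | bob (c : Sym2 V → Option (Fin k)) (e : Sym2 V) (a : Fin k) : Legal G c e a →
      BobWins G true (Function.update c e (some a)) → BobWins G false c

/-- Alice has a winning strategy from the position `c`; Alice is to move if the Boolean is `true`,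
Bob is to move if it is `false`. -/
inductive AliceWins {V : Type} [DecidableEq V] (G : SimpleGraph V) {k : ℕ} :
    Bool → (Sym2 V → Option (Fin k)) → Prop
  | done (t : Bool) (c : Sym2 V → Option (Fin k)) : (∀ e ∈ G.edgeSet, c e ≠ none) →
      AliceWins G t c
  | alice (c : Sym2 V → Option (Fin k)) (e : Sym2 V) (a : Fin k) : Legal G c e a →
      AliceWins G false (Function.update c e (some a)) → AliceWins G true c
  | bob (c : Sym2 V → Option (Fin k)) : (∃ e a, Legal G c e a) →
      (∀ e a, Legal G c e a → AliceWins G true (Function.update c e (some a))) →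
      AliceWins G false c

/-- The game chromatic index: the least number of colours for which Alice, who moves first, has a
winning strategy in the edge-colouring game. -/
noncomputable def gameIndex {V : Type} [DecidableEq V] (G : SimpleGraph V) : ℕ :=
  sInf {k : ℕ | AliceWins G true (fun _ => none : Sym2 V → Option (Fin k))}

section Lemmas

open Pool.Agent.GCI

variable {V : Type} [DecidableEq V] {G : SimpleGraph V} {k : ℕ}

theorem stuck_update {c : Sym2 V → Option (Fin k)} (h : Stuck G c) {e : Sym2 V} {a : Fin k}
    (he : Legal G c e a) : Stuck G (Function.update c e (some a)) := by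
  obtain ⟨f, hf, hn, hs⟩ := h
  have hfe : f ≠ e := by
    rintro rfl
    exact hs a he
  refine ⟨f, hf, by rw [Function.update_of_ne hfe, hn], ?_⟩
  intro b hb
  apply hs b
  refine ⟨hf, hn, ?_⟩
  intro g hg hgf hadj hc
  have h1 := hb.2.2 g hg hgf hadj
  have hge : g ≠ e := by
    rintro rfl
    rw [he.2.1] at hc
    exact absurd hc (by simp)
  rw [Function.update_of_ne hge] at h1
  exact h1 hc

theorem not_bob {t : Bool} {c : Sym2 V → Option (Fin k)} (h : AliceWins G t c) :
    ¬ BobWins G t c := by
  induction h with
  | done t c hd =>
    intro hb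
    cases hb with
    | stuck _ _ hs =>
      obtain ⟨e, he, hn, _⟩ := hs
      exact hd e he hn
    | alice _ hex _ =>
      obtain ⟨e, a, hl⟩ := hex
      exact hd e hl.1 hl.2.1
    | bob _ e a hl _ => exact hd e hl.1 hl.2.1
  | alice c e a hl _ ih =>
    intro hb
    cases hb with
    | stuck _ _ hs => exact ih (BobWins.stuck _ _ (stuck_update hs hl))
    | alice _ _ hall => exact ih (hall e a hl)
  | bob c hex _ ih =>
    intro hb
    cases hb with
    | stuck _ _ hs =>
      obtain ⟨e, a, hl⟩ := hex
      exact ih e a hl (BobWins.stuck _ _ (stuck_update hs hl))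
    | bob _ e a hl hw => exact ih e a hl hw

/-- With more colours than edges nobody can stop Alice. -/
theorem alice_many [Finite V] (hk : Nat.card (Sym2 V) < k) :
    ∀ (n : ℕ) (t : Bool) (c : Sym2 V → Option (Fin k)),
      Set.ncard {e | e ∈ G.edgeSet ∧ c e = none} = n → AliceWins G t c := by
  have hmove : ∀ (c : Sym2 V → Option (Fin k)) (e : Sym2 V), e ∈ G.edgeSet → c e = none →
      ∃ a, Legal G c e a := by
    intro c e he hn
    by_contra hno
    push Not at hno
    have h1 : ∀ a : Fin k, ∃ f : Sym2 V, c f = some a := by
      intro a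
      by_contra h2
      push Not at h2
      exact hno a ⟨he, hn, fun f _ _ _ => h2 f⟩
    choose F hF using h1
    have hinj : Function.Injective F := by
      intro a b hab
      have h3 := hF a
      rw [hab, hF b] at h3
      exact (Option.some_injective _ h3).symm
    have h4 := Nat.card_le_card_of_injective F hinj
    rw [Nat.card_eq_fintype_card, Fintype.card_fin] at h4
    omega
  intro n
  induction n with
  | zero =>
    intro t c hn
    rw [Set.ncard_eq_zero (Set.toFinite _)] at hn
    refine AliceWins.done _ _ ?_
    intro e he h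
    have h1 : e ∈ ({e | e ∈ G.edgeSet ∧ c e = none} : Set (Sym2 V)) := ⟨he, h⟩
    rw [hn] at h1
    exact h1
  | succ n ih =>
    intro t c hn
    have hstep : ∀ e a, Legal G c e a → ∀ t', AliceWins G t' (Function.update c e (some a)) := by
      intro e a hl t'
      apply ih
      have h1 : {f | f ∈ G.edgeSet ∧ c f = none} =
          insert e {f | f ∈ G.edgeSet ∧ Function.update c e (some a) f = none} := by
        ext f
        by_cases hf : f = e
        · subst hf
          simp [hl.1, hl.2.1]
        · simp [hf]
      rw [h1, Set.ncard_insert_of_notMem (by simp) (Set.toFinite _)] at hn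
      omega
    have hne : ({e | e ∈ G.edgeSet ∧ c e = none} : Set (Sym2 V)).Nonempty := by
      rw [← Set.ncard_pos (Set.toFinite _)]
      omega
    obtain ⟨e, he, hce⟩ := hne
    obtain ⟨a, ha⟩ := hmove c e he hce
    cases t with
    | true => exact AliceWins.alice _ e a ha (hstep e a ha false)
    | false => exact AliceWins.bob _ ⟨e, a, ha⟩ (fun e a hl => hstep e a hl true)

/-- The positions which Bob does not win form a strategy set of Alice. -/
theorem good_compl [Finite V] :
    Good G {c : Sym2 V → Option (Fin k) | ¬ BobWins G (decide (Even (cnt G c))) c} := by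
  intro c hc
  have hc' : ¬ BobWins G (decide (Even (cnt G c))) c := hc
  refine ⟨?_, ?_, ?_⟩
  · intro hno e he hn
    apply hc'
    exact BobWins.stuck _ _ ⟨e, he, hn, fun a hl => hno e he a hn hl.2.2⟩
  · intro hev hex
    have hev' : Even (cnt G c) := hev
    rw [decide_eq_true hev'] at hc'
    obtain ⟨e, he, a, hn, hl⟩ := hex
    by_contra hno
    apply hc'
    refine BobWins.alice _ ⟨e, a, he, hn, hl⟩ ?_
    intro e a hl
    by_contra hb
    apply hno
    refine ⟨e, hl.1, a, hl.2.1, hl.2.2, ?_⟩
    have hodd : ¬ Even (cnt G (Function.update c e (some a))) := by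
      rw [even_cnt_update hl.1 hl.2.1]
      exact not_not.2 hev'
    change ¬ BobWins G (decide (Even (cnt G (Function.update c e (some a))))) _
    rw [decide_eq_false hodd]
    exact hb
  · intro hodd e he a hn hl
    have hodd' : ¬ Even (cnt G c) := hodd
    rw [decide_eq_false hodd'] at hc'
    have hev : Even (cnt G (Function.update c e (some a))) := by
      rw [even_cnt_update he hn]
      exact hodd'
    change ¬ BobWins G (decide (Even (cnt G (Function.update c e (some a))))) _
    rw [decide_eq_true hev]
    intro hb
    exact hc' (BobWins.bob _ e a ⟨he, hn, hl⟩ hb)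

theorem bob_of_lost [Finite V] (h : Lost G (fun _ => none : Sym2 V → Option (Fin k))) :
    BobWins G true (fun _ => none : Sym2 V → Option (Fin k)) := by
  by_contra hb
  refine h _ good_compl ?_
  change ¬ BobWins G (decide (Even (cnt G (fun _ => none : Sym2 V → Option (Fin k))))) _
  rw [cnt_none, decide_eq_true Even.zero]
  exact hb

end Lemmas

open Pool.Agent.GCI in
/-- There is a finite tree of maximum degree 4 on which Bob has a winning strategy in the
edge-colouring game with `k` colours for every `k ≤ 5`; its game chromatic index is at least 6. -/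
theorem result : ∃ (V : Type) (_ : Fintype V) (_ : DecidableEq V) (G : SimpleGraph V)
    (_ : DecidableRel G.Adj), G.IsTree ∧ G.maxDegree = 4 ∧ 6 ≤ gameIndex G ∧
    ∀ k : ℕ, k ≤ 5 → BobWins G true (fun _ => none : Sym2 V → Option (Fin k)) := by
  obtain ⟨K, hK⟩ := lost_of_fresh fresh5
  obtain ⟨V, i1, i2, G, i3, hT, hmax, hA, hdeg, hfr, hfew⟩ := ball K
  have hbob : ∀ k : ℕ, k ≤ 5 → BobWins G true (fun _ => none : Sym2 V → Option (Fin k)) := by
    intro k hk
    apply bob_of_lost
    rcases Nat.lt_or_ge k 5 with h | h
    · exact hfew k (by omega)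
    · have : k = 5 := by omega
      subst this
      exact hK V G hA hdeg (fun c e0 hc => hfr c e0 hc)
  refine ⟨V, i1, i2, G, i3, hT, hmax, ?_, hbob⟩
  apply le_csInf
  · exact ⟨Nat.card (Sym2 V) + 1, alice_many (Nat.lt_succ_self _) _ _ _ rfl⟩
  · intro k hk
    by_contra h
    exact not_bob hk (hbob k (by omega))

end Pool.Agent.Results.MP_1dface_co.TreeIndexSix
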